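import Pool.Agent.Lib.MP_144d21_co.X2.IfaceC
import Pool.Agent.Lib.MP_144d21_co.XU.H80.Base3

/-! Module TRI1 (helper93): the invariant `bet` of a triangle. -/

set_option autoImplicit false

namespace Pool.Agent.Xu.X2.H93

open Finset Pool.Agent.Xu

theorem tri1 : Tri1S := fun _ _ _ _ _ hc h => H80.bet_clique3 h hc

end Pool.Agent.Xu.X2.H93
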